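import Pool.Agent.H56.Deg.Main

/-!
# Bisectors that join two given sets of points, and points on many bisectors

Definitions (library module `W296/HL3.lean`, namespace `Pool.Agent.W296.HL`):

* `Line a b c = {p | a * p.1 + b * p.2 = c}`,
* `GeneralPosition P`: no three distinct points of `P` on a common line,
* `IsBisector P L`: `L` is a line through two distinct points of `P` with exactly
  `|P| / 2 - 1` points of `P` on each open side.

In `Pool/Agent/H56/Deg/Main.lean`:

* `IsKLine P k L`: `L` is a line through two distinct points of `P`, one of its open sides contains exactly `k`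
  points of `P`,
* `Joining 𝓛 S T`: the lines `L ∈ 𝓛` that contain a point of `S` and a different point of `T`.

Proof idea. As in the proof of Dey's theorem (taken from the library) the bisecting segments of `P` have at most
`|P| ^ 2 / 2` crossings. The new ingredient is a crossing lemma for the segments that join `S` and `T`: if the points of
`S` are coloured with `a` colours and the points of `T` with `b` colours, independently at random, then a crossing
survives in one of the `a b` classes with probability `1 / (a b)` only, and `a`, `b` are chosen according to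
the sizes of `S` and `T`.
-/

namespace Pool.Agent.Results.MP_e17eac_co.PointsOnManyBisectors

open Finset Pool.Agent.W296.HL Pool.Agent.H56.Deg

/-- Let `P` be a finite set of `n` points in general position.
1. For all subsets `S`, `T` of `P` at most `13 (|S| |T| n ^ 2) ^ (1 / 3)` bisectors of `P` contain a point of `S` and
   a different point of `T`.
2. For every subset `S` the numbers of bisectors through the points of `S` add up to at most
   `26 n |S| ^ (1 / 3)`.
3. At most `(26 n / t) ^ (3 / 2)` points of `P` are on at least `t` bisectors.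
4. - 6. The same, with the constants `26`, `52` and `52`, for the lines through two points of `P` with exactly `k`
   points on one side, for every `k`. -/
theorem result (P : Finset (ℝ × ℝ)) (hP : GeneralPosition P) :
    (∀ S ⊆ P, ∀ T ⊆ P, ((Joining {L | IsBisector P L} S T).ncard : ℝ) ≤
      13 * ((#S : ℝ) * #T * #P ^ 2) ^ (1 / 3 : ℝ)) ∧
    (∀ S ⊆ P, (∑ p ∈ S, ({L | IsBisector P L ∧ p ∈ L}.ncard : ℝ)) ≤ 26 * #P * (#S : ℝ) ^ (1 / 3 : ℝ)) ∧
    (∀ t : ℕ, 0 < t → ∀ S ⊆ P, (∀ p ∈ S, t ≤ {L | IsBisector P L ∧ p ∈ L}.ncard) →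
      (#S : ℝ) ≤ (26 * #P / t) ^ (3 / 2 : ℝ)) ∧
    ∀ k : ℕ, (∀ S ⊆ P, ∀ T ⊆ P, ((Joining {L | IsKLine P k L} S T).ncard : ℝ) ≤
        26 * ((#S : ℝ) * #T * #P ^ 2) ^ (1 / 3 : ℝ)) ∧
      (∀ S ⊆ P, (∑ p ∈ S, ({L | IsKLine P k L ∧ p ∈ L}.ncard : ℝ)) ≤ 52 * #P * (#S : ℝ) ^ (1 / 3 : ℝ)) ∧
      ∀ t : ℕ, 0 < t → ∀ S ⊆ P, (∀ p ∈ S, t ≤ {L | IsKLine P k L ∧ p ∈ L}.ncard) →
        (#S : ℝ) ≤ (52 * #P / t) ^ (3 / 2 : ℝ) :=
  ⟨fun _ hS _ hT => bisectors_joining hP hS hT, (bisectors_rich hP).1, (bisectors_rich hP).2,
    fun k => ⟨fun _ hS _ hT => klines_joining hP k hS hT, (klines_rich hP k).1, (klines_rich hP k).2⟩⟩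

end Pool.Agent.Results.MP_e17eac_co.PointsOnManyBisectors
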