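import Pool.Agent.H56.RP.Hier

/-!
# Halving lines and random translations of rigid parts

Definitions (in `Pool/Agent/H56/RP/Comb.lean`, `Main.lean`, `Hier.lean`):

* `orient p q s`: twice the signed area of the triangle `p q s`;
* `IsEdge X k i j`: `X i ≠ X j`, exactly `k` of the `n` points `X l` are strictly to the left of the directed line
  from `X i` to `X j`, and exactly `n - 2 - k` are strictly to the right (a directed `k`-edge);
* `place x A v`: the points `x l`, moved by the sum of the vectors `v t` with `l ∈ A t`;
* `between X k S T`: the number of the directed `k`-edges from `S` to `T` or from `T` to `S`;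
* `c t l ∈ Fin m` is the label of the point `l` at the level `t < h`; the points with the same label form a part of
  this level; `Refines c`: the parts of a level are contained in parts of the previous levels;
* `move x c v`: the points `x l`, moved by the sum of the vectors `v (t, c t l)` of all their parts;
* `Noise ν r κ`: the `ν (t, J)` are probability measures with densities at most `κ / r t ^ 2` in the square
  `[-r t, r t] ^ 2`;
* `joining X c k`: the number of the directed `k`-edges that join points of different parts (of some level);
  `JoiningBisector X c L`: `L` is a bisector of the set of the points `X l` and contains points of different parts;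
* `RigidGP x c`: every part of the finest level is a set of distinct points in general position;
* `Line`, `GeneralPosition`, `IsBisector` (library module `KLev/Halving.lean`, namespace `KLev.Halving`).

Proof idea. Let only the set `A` move, by a vector `(u, w)`, and let `B` be fixed. For a pair `(i, j)` in `B × A`
and fixed `u` use the slope `s` of the line through the points `i`, `j` instead of `w` as the variable. Whether the
pair is a `k`-edge depends only on the ranks of `i` in the complement of `A` and of `j` in `A` in the direction `s`,
as `A` is rigid; so for each slope there is at most one such `j` for each `i` and conversely.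
-/

namespace Pool.Agent.Results.MP_e17eac_co.RigidParts

open Finset MeasureTheory Pool.Agent.H56.RP KLev.Halving
open scoped ENNReal

/-- (1) If a subset `A t` of a finite set is translated by a random vector with a density at most `κ / r ^ 2` in the
square `[-r, r] ^ 2` (other subsets may be translated independently), and the points of `A t` and of a disjoint set
`B` have coordinates that differ by at most `D`, then the expected number of the directed `k`-edges between `A t` and
`B` is at most `32 κ (D / r) min (|A t|, |B|)`, for every `k`.
(2) If the parts of `h` nested partitions of `n` points are translated independently, then the expected number of the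
directed `k`-edges that join different parts is at most `16 κ n ∑ D t / r t`, where `D t` bounds the differences of the
coordinates of two points in a common part of the level `t - 1`; almost surely the points are in general position and
(for even `n`) the number of the bisectors that join different parts is at most half the number of these
`(n / 2 - 1)`-edges.
(3) Hence there are such translations, by at most `r t` at the level `t`, such that the points are in general position
and at most `4 n ∑ D t / r t` bisectors join different parts. -/
theorem result :
    (∀ (n m : ℕ) (x : Fin n → ℝ × ℝ) (A : Fin m → Finset (Fin n)) (B : Finset (Fin n))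
      (ν : Fin m → Measure (ℝ × ℝ)) (t : Fin m) (D r κ : ℝ), (∀ s, IsProbabilityMeasure (ν s)) →
      Disjoint B (A t) → 0 ≤ D → 0 < r → 0 ≤ κ → ν t ≤ ENNReal.ofReal (κ / r ^ 2) • volume →
      (∀ᵐ z ∂ν t, |z.1| ≤ r ∧ |z.2| ≤ r) →
      (∀ᵐ v ∂Measure.pi ν, ∀ i ∈ B, ∀ j ∈ A t, |(place x A v i).1 - (place x A v j).1| ≤ D ∧
        |(place x A v i).2 - (place x A v j).2| ≤ D) →
      ∀ k : ℕ, Measurable (fun v => (between (place x A v) k (A t) B : ℝ≥0∞)) ∧
        ∫⁻ v, (between (place x A v) k (A t) B : ℝ≥0∞) ∂Measure.pi ν ≤
          ENNReal.ofReal (32 * κ * (D / r) * (min #(A t) #B : ℕ))) ∧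
    (∀ (h m n : ℕ) (x : Fin n → ℝ × ℝ) (c : Fin h → Fin n → Fin m)
      (ν : Fin h × Fin m → Measure (ℝ × ℝ)) (r D : Fin h → ℝ) (κ : ℝ), Refines c → Noise ν r κ →
      (∀ t, 0 ≤ D t) →
      (∀ t i j, (∀ s < t, c s i = c s j) → |(x i).1 - (x j).1| + 2 * ∑ s with t ≤ s, r s ≤ D t ∧
        |(x i).2 - (x j).2| + 2 * ∑ s with t ≤ s, r s ≤ D t) →
      (∀ k : ℕ, Measurable (fun v => (joining (move x c v) c k : ℝ≥0∞)) ∧
        ∫⁻ v, (joining (move x c v) c k : ℝ≥0∞) ∂Measure.pi ν ≤
          ENNReal.ofReal (16 * κ * n * ∑ t, D t / r t)) ∧
      (RigidGP x c → ∀ᵐ v ∂Measure.pi ν, Function.Injective (move x c v) ∧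
        GeneralPosition (univ.image (move x c v)) ∧
        (Even n → 2 * {L | JoiningBisector (move x c v) c L}.ncard ≤
          joining (move x c v) c (n / 2 - 1)))) ∧
    (∀ (h m n : ℕ) (x : Fin n → ℝ × ℝ) (c : Fin h → Fin n → Fin m) (r D : Fin h → ℝ),
      Refines c → RigidGP x c → Even n → (∀ t, 0 < r t) → (∀ t, 2 * ∑ s with t ≤ s, r s ≤ D t) →
      (∀ t i j, (∀ s < t, c s i = c s j) → |(x i).1 - (x j).1| ≤ D t ∧ |(x i).2 - (x j).2| ≤ D t) →
      ∃ v : Fin h × Fin m → ℝ × ℝ, (∀ q, |(v q).1| ≤ r q.1 ∧ |(v q).2| ≤ r q.1) ∧
        Function.Injective (move x c v) ∧ GeneralPosition (univ.image (move x c v)) ∧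
        ({L | JoiningBisector (move x c v) c L}.ncard : ℝ) ≤ 4 * n * ∑ t, D t / r t) := by
  refine ⟨?_, ?_, ?_⟩
  · intro n m x A B ν t D r κ hp hAB hD hr hκ hν hs hd k
    exact ⟨measurable_between x A k _ _, lintegral_between x A B ν t hAB k hD hr hκ hν hs hd⟩
  · intro h m n x c ν r D κ hc hN hD0 hD
    refine ⟨fun k => ⟨measurable_joining x c k, lintegral_joining x c hc hN hD0 hD k⟩, fun hx => ?_⟩
    filter_upwards [ae_generic x c hx hN] with v hv
    exact ⟨hv.1, generalPosition_of hv.2, fun hn => joiningBisectors_le hv.1 hn c⟩
  · intro h m n x c r D hc hx hn hr hrD hD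
    exact exists_translations x c hc hx hn r D hr hrD hD

end Pool.Agent.Results.MP_e17eac_co.RigidParts
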