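import Pool.Agent.H15.SF.Det

set_option autoImplicit false

/-!
# Smoothed number of halving lines: separated sets and sets with few differences

Definitions (`Pool/Graph/R_pool_sql_team_seeded_35f281b4/K7/H26/SM/Defs.lean`, namespace
`Pool.Agent.K7.H26.SM`):
* `orient p q s`: twice the signed area of the triangle `p q s`; `left x p q`: the number of the
  points `x l` strictly to the left of the directed line from `p` to `q`;
* `edges x k`: the number of ordered pairs `(i, j)` with `x i ≠ x j` and exactly `k` of the points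
  strictly to the left of the directed line from `x i` to `x j` (directed `k`-edges);
* `Noise f p r κ D`: every `f i` is a probability density on the plane, bounded by `κ / r i ^ 2`
  and vanishing outside the square with centre `p i` and side `2 * r i`, and any two points of two
  of these squares differ by at most `D` in each coordinate;
* `law f`: the law of independent random points `x i` with densities `f i`;
* `Line`, `GeneralPosition`, `IsBisector`: lines `a x + b y = c`; no three distinct points of the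
  set on a line; `L` is a line through two points of `P` with exactly `|P| / 2 - 1` points of `P`
  on each open side.
In `Pool/Agent/H15/SF/Pairs.lean`:
* `edgesOn E x k`: the number of the pairs `(i, j) ∈ E` that are directed `k`-edges of `x`.

Here all the `r i` are equal to `r`.

Idea of the proof. For a line `l` of slope `a` let `φ i` be the density of `x i` on `l`. The
expected number of the `k`-edges of a set `E` of pairs is at most the integral over the lines `l`
of `∑ φ i φ j |dx|`, times the probability that about `k` points are above `l`. For given `i`, the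
sum over `j` of `φ j |dx|` is bounded by `S (a)`, the sum over the vectors `v = p j - p i` of
`κ / r * |v|` for the slopes `a` within `r / |v|` of the slope of `v`; hence every vector
contributes a bounded amount to the integral of `S`, whatever `r` is, and the integral of
`∑ φ i` over the intercepts at level `k` is bounded. So every class of pairs with the same
difference vector contains on average a bounded number of `k`-edges. Long edges are counted with
Lovász' lemma. For separated points `S (a)` is bounded by counting the squares near a segment.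
-/

namespace Pool.Agent.Results.MP_e17eac_co.SeparatedSets

open MeasureTheory Finset Function
open scoped ENNReal
open Pool.Agent.K7.H26.SM Pool.Agent.H15.SF

open scoped Classical in
theorem result :
    -- (1) the pairs with difference vectors in a given finite set `V`
    (∀ (n : ℕ) (f : Fin n → ℝ × ℝ → ℝ≥0∞) (p : Fin n → ℝ × ℝ) (r κ D : ℝ) (μ : ℕ), 0 < r →
      Noise f p (fun _ => r) κ D → (∀ z, (univ.filter fun j => p j = z).card ≤ μ) →
      ∀ (E : Finset (Fin n × Fin n)) (V : Finset (ℝ × ℝ)),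
      (∀ i j, (i, j) ∈ E → p j - p i ∈ V) → ∀ k : ℕ,
      ∫⁻ x, (edgesOn E x k : ℝ≥0∞) ∂law f ≤ ENNReal.ofReal (512 * κ * μ * V.card)) ∧
    -- (2) all pairs, with `K - 1` cuts; `V` contains the short differences
    (∀ (n : ℕ) (f : Fin n → ℝ × ℝ → ℝ≥0∞) (p : Fin n → ℝ × ℝ) (r κ D : ℝ) (μ : ℕ), 0 < r →
      Noise f p (fun _ => r) κ D → (∀ z, (univ.filter fun j => p j = z).card ≤ μ) →
      ∀ K : ℕ, 0 < K → ∀ V : Finset (ℝ × ℝ),
      (∀ i j, |(p j).1 - (p i).1| ≤ D / K + 3 * r → |(p j).2 - (p i).2| ≤ D / K + 3 * r →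
        p j - p i ∈ V) → ∀ k : ℕ,
      ∫⁻ x, (edges x k : ℝ≥0∞) ∂law f ≤ ENNReal.ofReal
        (4 * (K - 1) * (min (k + 1) (n - 1 - k) : ℕ) + 512 * κ * μ * V.card)) ∧
    -- (3) separated differences, for instance subsets of a lattice
    (∀ (n : ℕ) (f : Fin n → ℝ × ℝ → ℝ≥0∞) (p : Fin n → ℝ × ℝ) (r δ κ D : ℝ) (μ : ℕ), 0 < r →
      r ≤ δ → δ ≤ D →
      Noise f p (fun _ => r) κ D → (∀ z, (univ.filter fun j => p j = z).card ≤ μ) →
      (∀ i j i' j', p j - p i ≠ p j' - p i' →
        δ ≤ |(p j - p i).1 - (p j' - p i').1| ∨ δ ≤ |(p j - p i).2 - (p j' - p i').2|) → ∀ k : ℕ,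
      ∫⁻ x, (edges x k : ℝ≥0∞) ∂law f ≤ ENNReal.ofReal
        (51216 * κ * μ * ((min (k + 1) (n - 1 - k) : ℕ) * D / δ) ^ (2 / 3 : ℝ))) ∧
    -- (4) separated points
    (∀ (n : ℕ) (f : Fin n → ℝ × ℝ → ℝ≥0∞) (p : Fin n → ℝ × ℝ) (r δ κ D : ℝ), 0 < r → r ≤ δ →
      Noise f p (fun _ => r) κ D →
      (∀ i j, i ≠ j → δ ≤ |(p i).1 - (p j).1| ∨ δ ≤ |(p i).2 - (p j).2|) → ∀ k : ℕ,
      δ ^ 2 ≤ (min (k + 1) (n - 1 - k) : ℕ) * D * r →
      ∫⁻ x, (edges x k : ℝ≥0∞) ∂law f ≤ ENNReal.ofReal
        (124432 * κ * ((min (k + 1) (n - 1 - k) : ℕ) * D) ^ (2 / 3 : ℝ) /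
          (δ * r) ^ (1 / 3 : ℝ))) ∧
    -- (5) arbitrarily small perturbations with at most `64 |P - P|` bisectors
    (∀ (n : ℕ) (p : Fin n → ℝ × ℝ), Injective p → ∀ r : ℝ, 0 < r →
      ∃ x : Fin n → ℝ × ℝ, Injective x ∧ GeneralPosition (univ.image x) ∧
        (∀ i, |(x i).1 - (p i).1| ≤ r ∧ |(x i).2 - (p i).2| ≤ r) ∧
        ({L | IsBisector (univ.image x) L}.ncard : ℝ) ≤
          64 * (univ.image fun e : Fin n × Fin n => p e.2 - p e.1).card) ∧
    -- (6) arbitrarily small perturbations of sets with separated differences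
    (∀ (n : ℕ) (p : Fin n → ℝ × ℝ), Injective p → ∀ r δ D : ℝ, 0 < r → r ≤ δ → δ ≤ D →
      (∀ i j, |(p i).1 - (p j).1| ≤ D ∧ |(p i).2 - (p j).2| ≤ D) →
      (∀ i j i' j', p j - p i ≠ p j' - p i' →
        δ ≤ |(p j - p i).1 - (p j' - p i').1| ∨ δ ≤ |(p j - p i).2 - (p j' - p i').2|) →
      ∃ x : Fin n → ℝ × ℝ, Injective x ∧ GeneralPosition (univ.image x) ∧
        (∀ i, |(x i).1 - (p i).1| ≤ r ∧ |(x i).2 - (p i).2| ≤ r) ∧
        ({L | IsBisector (univ.image x) L}.ncard : ℝ) ≤ 8500 * (n * D / δ) ^ (2 / 3 : ℝ)) ∧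
    -- (7) perturbations of separated sets
    (∀ (n : ℕ) (p : Fin n → ℝ × ℝ) (r δ D : ℝ), 0 < r → r ≤ δ → δ ≤ D → 3 * δ ^ 2 ≤ n * D * r →
      (∀ i j, |(p i).1 - (p j).1| ≤ D ∧ |(p i).2 - (p j).2| ≤ D) →
      (∀ i j, i ≠ j → δ ≤ |(p i).1 - (p j).1| ∨ δ ≤ |(p i).2 - (p j).2|) →
      ∃ x : Fin n → ℝ × ℝ, Injective x ∧ GeneralPosition (univ.image x) ∧
        (∀ i, |(x i).1 - (p i).1| ≤ r ∧ |(x i).2 - (p i).2| ≤ r) ∧
        ({L | IsBisector (univ.image x) L}.ncard : ℝ) ≤
          21000 * (n * D) ^ (2 / 3 : ℝ) / (δ * r) ^ (1 / 3 : ℝ)) := by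
  refine ⟨?_, ?_, ?_, ?_, ?_, ?_, ?_⟩
  · intro n f p r κ D μ hr h hμ E V hV k
    exact edgesOn_V h hr hμ hV k
  · intro n f p r κ D μ hr h hμ K hK V hV k
    exact edges_V h hr hμ hK hV k
  · intro n f p r δ κ D μ hr hrδ hδD h hμ hsep k
    exact edges_diff h hr hrδ hδD hμ hsep k
  · intro n f p r δ κ D hr hrδ h hsep k hδ2
    exact edges_sep h hr hrδ hsep k hδ2
  · intro n p hp r hr
    exact move_diff p hp hr
  · intro n p hp r δ D hr hrδ hδD hpD hsep
    exact move_sepdiff p hp hr hrδ hδD hpD hsep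
  · intro n p r δ D hr hrδ hδD h3 hpD hsep
    exact move_sep p hr hrδ hδD h3 hpD hsep

end Pool.Agent.Results.MP_e17eac_co.SeparatedSets
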