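import Pool.Agent.H56.HL.Fin
import Pool.Graph.R_seed8.KLev.Halving
import Pool.Graph.R_seed8.KLev.Final

/-!
# Halving lines: `f n ≥ n ^ (1 + c (log log log n / log log n) ^ 4)`

`Line`, `GeneralPosition`, `IsBisector` and `f` are defined in the library module `KLev/Halving.lean`
(namespace `KLev.Halving`):

* `Line a b c = {p | a * p.1 + b * p.2 = c}`,
* `GeneralPosition P`: no three distinct points of `P` on a common line,
* `IsBisector P L`: `L` is a line through two distinct points of `P` with exactly
  `|P| / 2 - 1` points of `P` on each open side,
* `f n`: the maximum of the number of bisectors over all `n`-point sets in general position.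

The theorem improves the bound `n ^ (1 + 1 / (log log n) ^ 4)` of the library: for every constant `K` the exponent
`1 + K / (log log n) ^ 4` is reached, and even `1 + (log log log n) ^ (4 - ε) / (log log n) ^ 4`. The construction is
that of the library (`Pool.Agent.N35.HL.levels`: hierarchical compositions of line arrangements, with
`A (s + 1) ^ 2` compositions at the level `s`); the new part (`Pool.Agent.H56.HL.Fin`) is the exact count of
the number `s` of the levels that are needed for `n` points: it is at most `6 log log n / log log log n`, as the number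
of all compositions up to the level `s` is at least `s!`.
-/

namespace Pool.Agent.Results.MP_e17eac_co.TripleLogPower

open Filter KLev

/-- There is a constant `c > 0` such that `f n ≥ n ^ (1 + c (log log log n / log log n) ^ 4)` for all large even
`n`. -/
theorem result : ∃ c : ℝ, 0 < c ∧ ∀ᶠ n : ℕ in atTop, Even n →
    (n : ℝ) ^ (1 + c * (Real.log (Real.log (Real.log n)) / Real.log (Real.log n)) ^ 4) ≤ (Halving.f n : ℝ) := by
  obtain ⟨c, hc, hP⟩ := Pool.Agent.H56.HL.finalP'
  refine ⟨c, hc, ?_⟩
  obtain ⟨a, ha⟩ := (hP 1).exists_forall_of_atTop
  filter_upwards [eventually_ge_atTop (2 * a + 2)] with n hn heven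
  obtain ⟨m, hm⟩ := heven
  obtain ⟨N, E, P, hH, hN, hE⟩ := ha m (by omega)
  have h1 := hH.le_f hN
  have e : 2 * m = n := by omega
  rw [e] at h1
  have h2 : (E : ℝ) ≤ Halving.f n := by exact_mod_cast h1
  have hnm : (n : ℝ) = 2 * m := by rw [← e]; push_cast; ring
  have hm0 : (0 : ℝ) ≤ m := Nat.cast_nonneg _
  have h3 := hE n (by linarith) (by linarith)
  rw [one_mul] at h3
  exact h3.trans h2

end Pool.Agent.Results.MP_e17eac_co.TripleLogPower
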